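import Pool.Agent.W488.IX.Stm

/-! Project IX: the pointwise certificate. -/

set_option autoImplicit false

namespace Pool.Agent.W658.IX.Pcx

open MeasureTheory Set Filter Topology
open Pool.Agent.W488.IW Pool.Agent.W488.IX

lemma XX_pos (ε : ℝ) (hε : 0 < ε) (a : ℂ) : 0 < XX ε a := by
  unfold XX
  have := norm_nonneg a
  positivity

lemma XX_lt (ε : ℝ) (hε : 0 < ε) (a b : ℂ) (h : ‖a‖ < ‖b‖) : XX ε a < XX ε b := by
  unfold XX
  apply Real.sqrt_lt_sqrt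
  · positivity
  · have := norm_nonneg a
    nlinarith

lemma bnd_mono {K K' ε A B ρ τ ξ ζ e2 g2 : ℝ} (hK : K ≤ K') (hε : 0 ≤ ε)
    (h : Bnd K ε A B ρ τ ξ ζ e2 g2) : Bnd K' ε A B ρ τ ξ ζ e2 g2 := by
  have h1 : K * ε ≤ K' * ε := mul_le_mul_of_nonneg_right hK hε
  exact
  { hA := h.hA
    hB := h.hB
    r0 := ⟨h.r0.1, h.r0.2.trans hK⟩
    t0 := ⟨h.t0.1, h.t0.2.trans hK⟩
    x0 := ⟨h.x0.1, h.x0.2.trans hK⟩
    z0 := ⟨h.z0.1, h.z0.2.trans hK⟩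
    b1 := h.b1.trans h1
    b2 := h.b2.trans h1
    b3 := h.b3.trans h1
    b4 := h.b4.trans h1
    b5 := h.b5.trans h1
    b6 := h.b6.trans h1 }

lemma bn2_mono {K K' e A B t K1 K2 O1 O2 H e0 g0 : ℝ} (hK : K ≤ K')
    (h : Bn2 K e A B t K1 K2 O1 O2 H e0 g0) : Bn2 K' e A B t K1 K2 O1 O2 H e0 g0 :=
  { hA := h.hA
    hB := h.hB
    ht := h.ht
    k1 := ⟨h.k1.1, h.k1.2.trans hK⟩
    k2 := ⟨h.k2.1, h.k2.2.trans hK⟩
    o1 := ⟨h.o1.1, h.o1.2.trans hK⟩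
    o2 := ⟨h.o2.1, h.o2.2.trans hK⟩
    h0 := ⟨h.h0.1, h.h0.2.trans hK⟩
    c1 := h.c1
    c2 := h.c2
    c3 := h.c3
    c4 := h.c4
    r1 := h.r1
    r2 := h.r2
    r3 := h.r3
    r4 := h.r4
    r5 := h.r5 }

/-- the certificate from the two partial-derivative data sets -/
lemma cert_of (h1 : S_JW) (h4 : S_DIVG) (h5 : S_OMG) (h6 : S_ROTG) {α C : ℝ} {κ : ℝ → ℝ}
    (hκ : Kap α C κ) {ε ϑ n : ℝ} (hε : 0 < ε) (a b : ℂ)
    (l xx xy yy ex ey gx gy : ℝ)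
    (hl : mX ε (a, b) = (l : ℂ) * ((starRingEnd ℂ) a * b / ((XX ε a * XX ε b : ℝ) : ℂ)))
    (hx : HasFDerivAt (fun z : ℝ × ℝ => Fx κ z.1 z.2) (lin xx xy) (XX ε a, XX ε b))
    (hy : HasFDerivAt (fun z : ℝ × ℝ => Fy κ z.1 z.2) (lin xy yy) (XX ε a, XX ε b))
    (hE : HasFDerivAt (fun z : ℝ × ℝ => E2 κ z.1 z.2) (lin ex ey) (XX ε a, XX ε b))
    (hG : HasFDerivAt (fun z : ℝ × ℝ => G2 κ z.1 z.2) (lin gx gy) (XX ε a, XX ε b))
    (hpos : ∀ P Q R : ℝ,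
      0 ≤ FpG (‖a‖ / XX ε a) (‖b‖ / XX ε b) l (Fx κ (XX ε a) (XX ε b) / XX ε a) xx
        (Fy κ (XX ε a) (XX ε b) / XX ε b) yy xy (ex / XX ε a) (ey / XX ε a)
        (2 * E2 κ (XX ε a) (XX ε b) / XX ε a ^ 2) (gx / XX ε b) (gy / XX ε b)
        (2 * G2 κ (XX ε a) (XX ε b) / XX ε b ^ 2) ϑ n P Q R ∧
      0 ≤ FmG (‖a‖ / XX ε a) (‖b‖ / XX ε b) l (Fx κ (XX ε a) (XX ε b) / XX ε a) xx
        (Fy κ (XX ε a) (XX ε b) / XX ε b) yy xy (ex / XX ε a) (ey / XX ε a)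
        (2 * E2 κ (XX ε a) (XX ε b) / XX ε a ^ 2) (gx / XX ε b) (gy / XX ε b)
        (2 * G2 κ (XX ε a) (XX ε b) / XX ε b ^ 2) ϑ n P Q R) :
    Cert (mX ε) n (wX κ ε ϑ) (eX κ ε ϑ) (gX κ ε ϑ) (a, b) := by
  have hX := XX_pos ε hε a
  have hY := XX_pos ε hε b
  have hev : ∀ᶠ z : ℝ × ℝ in 𝓝 (XX ε a, XX ε b), HasFDerivAt (fun z : ℝ × ℝ => fX κ z.1 z.2)
      (lin (Fx κ z.1 z.2) (Fy κ z.1 z.2)) z := by
    have ho : IsOpen {z : ℝ × ℝ | 0 < z.1 ∧ 0 < z.2} :=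
      (isOpen_lt continuous_const continuous_fst).inter
        (isOpen_lt continuous_const continuous_snd)
    filter_upwards [ho.mem_nhds (show (XX ε a, XX ε b) ∈ {z : ℝ × ℝ | 0 < z.1 ∧ 0 < z.2} from
      ⟨hX, hY⟩)] with z hz
    exact h1 α C κ hκ z.1 z.2 hz.1 hz.2
  obtain ⟨hd1, hd2⟩ := h4 (fX κ) (Fx κ) (Fy κ) ε ϑ (fX κ ε ε) a b xx xy yy hε hev hx hy
  obtain ⟨⟨he1, he2⟩, -⟩ := h5 (E2 κ) ε ϑ a b ex ey hε hE
  obtain ⟨-, hg1, hg2⟩ := h5 (G2 κ) ε ϑ a b gx gy hε hG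
  refine ⟨hd1, he1, hg1, ?_⟩
  intro p q r
  obtain ⟨P, Q, R, P', Q', R', hPQ⟩ := h6 (XX ε a) (XX ε b) l
    (Fx κ (XX ε a) (XX ε b) / XX ε a) xx
    (Fy κ (XX ε a) (XX ε b) / XX ε b) yy xy (ex / XX ε a) (ey / XX ε a)
    (2 * E2 κ (XX ε a) (XX ε b) / XX ε a ^ 2) (gx / XX ε b) (gy / XX ε b)
    (2 * G2 κ (XX ε a) (XX ε b) / XX ε b ^ 2) ϑ n a b p q r hX hY
  have e1 : DIV (wX κ ε ϑ) (a, b) p q r (Vm (mX ε) n (a, b) p q r)
      = (LamG (XX ε a) (XX ε b) (Fx κ (XX ε a) (XX ε b) / XX ε a) xx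
        (Fy κ (XX ε a) (XX ε b) / XX ε b) yy xy ϑ a b p q r
          * (Vm (mX ε) n (a, b) p q r)).re := hd2 p q r _
  have e2 : OMa (eX κ ε ϑ) (a, b) p q r
      = OAG (XX ε a) (XX ε b) (ex / XX ε a) (ey / XX ε a)
        (2 * E2 κ (XX ε a) (XX ε b) / XX ε a ^ 2) ϑ a b p q r := he2 p q r
  have e3 : OMb (gX κ ε ϑ) (a, b) p q r
      = OBG (XX ε a) (XX ε b) (gx / XX ε b) (gy / XX ε b)
        (2 * G2 κ (XX ε a) (XX ε b) / XX ε b ^ 2) ϑ a b p q r := hg2 p q r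
  have e4 : Vm (mX ε) n (a, b) p q r = n * q
      + l * ((starRingEnd ℂ) a * b / ((XX ε a * XX ε b : ℝ) : ℂ)) * p
      + (starRingEnd ℂ) (l * ((starRingEnd ℂ) a * b / ((XX ε a * XX ε b : ℝ) : ℂ))) * r := by
    unfold Vm
    rw [hl]
  rw [e1, e2, e3, e4, hPQ]
  exact add_nonneg (hpos P Q R).1 (hpos P' Q' R').2

/-- IX-PCX: the pointwise certificate. -/
theorem main (h1 : S_JW) (h2 : S_J1) (h3 : S_J2) (h4 : S_DIVG) (h5 : S_OMG) (h6 : S_ROTG)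
    (h7 : S_ALG1) (h8 : S_ALG2) (h9 : S_BND1) (h10 : S_BND2) : S_PCX := by
  intro α C κ hκ ϑ hϑ
  obtain ⟨Ka, hKa1, hBa⟩ := h9 α C κ hκ
  obtain ⟨Kb, hKb1, hBb⟩ := h10 α C κ hκ
  have hK1 : 1 ≤ max Ka Kb := le_max_of_le_left hKa1
  have hKpos : 0 < max Ka Kb := lt_of_lt_of_le one_pos hK1
  set K := max Ka Kb with hKdef
  have hδ0 : 0 < min 1 (ϑ ^ 2 / (4 * K ^ 2)) := by
    apply lt_min one_pos
    positivity
  set δ := min 1 (ϑ ^ 2 / (4 * K ^ 2)) with hδdef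
  have hδ1 : δ ≤ 1 := min_le_left _ _
  have hδ2 : δ * (4 * K ^ 2) ≤ ϑ ^ 2 := by
    have : δ ≤ ϑ ^ 2 / (4 * K ^ 2) := min_le_right _ _
    rwa [le_div_iff₀ (by positivity)] at this
  obtain ⟨εa, hεa, hA1⟩ := h7 K ϑ δ hK1 hϑ hδ0 hδ1 hδ2
  obtain ⟨εb, hεb, hA2⟩ := h8 K ϑ δ hK1 hϑ hδ0 hδ1 hδ2
  have hKb0 : 0 < Kb := lt_of_lt_of_le one_pos hKb1
  have hm : 0 < min εa (εb / Kb) := lt_min hεa (by positivity)
  refine ⟨δ, hδ0, min (1 / 8) (min εa (εb / Kb) ^ (α⁻¹)), lt_min (by norm_num) (by positivity), ?_⟩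
  intro ε hε hε' F hF
  have h8' : ε < 1 / 8 := lt_of_lt_of_le hε' (min_le_left _ _)
  have hα := hκ.a0
  have hεα : ε ^ α < min εa (εb / Kb) := by
    have := Real.rpow_lt_rpow hε.le (lt_of_lt_of_le hε' (min_le_right _ _)) hα
    rwa [Real.rpow_inv_rpow hm.le hα.ne'] at this
  have hεα0 : 0 < ε ^ α := Real.rpow_pos_of_pos hε α
  obtain ⟨a, b⟩ := F
  have hX := XX_pos ε hε a
  have hY := XX_pos ε hε b
  rcases lt_or_gt_of_ne hF with hab | hab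
  · -- region `x < y`
    simp only at hab
    have hXY := XX_lt ε hε a b hab
    obtain ⟨j1, j2, j3, j4, j5, j6, j7, j8⟩ := h2 α C κ hκ (XX ε a) (XX ε b) hX hXY
    have hb := bnd_mono (le_max_left Ka Kb) hεα0.le (hBa ε hε h8' ‖a‖ ‖b‖ (norm_nonneg _)
      hab.le (XX ε a) (XX ε b) rfl rfl)
    have hP := hA1 (ε ^ α) hεα0 (lt_of_lt_of_le hεα (min_le_left _ _)) _ _ _ _ _ _ _ _ hb
    refine cert_of h1 h4 h5 h6 hκ hε a b 1 _ _ _ _ _ _ _ ?_ j3 j4 j6 j8 ?_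
    · unfold mX
      simp only [max_eq_right hXY.le]
      push_cast
      ring
    · intro P Q R
      have hs : XX ε a + XX ε b ≠ 0 := by positivity
      constructor
      · have := (hP P Q R).1
        convert this using 1
        unfold FpG Fpl
        rw [j1, j2, j5, j7]
        field_simp
        ring
      · have := (hP P Q R).2
        convert this using 1
        unfold FmG Fmi
        rw [j1, j2, j5, j7]
        field_simp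
        ring
  · -- region `y < x`
    simp only at hab
    have hXY := XX_lt ε hε b a hab
    obtain ⟨j1, j2, j3, j4, j5, j6⟩ := h3 α C κ hκ (XX ε a) (XX ε b) hY hXY
    have hb := bn2_mono (le_max_right Ka Kb) (hBb ε hε h8' ‖a‖ ‖b‖ (norm_nonneg _)
      hab (XX ε a) (XX ε b) rfl rfl)
    have hεb : Kb * ε ^ α < εb := by
      have := lt_of_lt_of_le hεα (min_le_right _ _)
      rw [lt_div_iff₀ hKb0] at this
      linarith
    have hP := hA2 (Kb * ε ^ α) (by positivity) hεb _ _ _ _ _ _ _ _ _ _ hb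
    refine cert_of h1 h4 h5 h6 hκ hε a b (XX ε b / XX ε a) _ _ _ _ _ _ _ ?_ j3 j4 j5 j6 ?_
    · unfold mX
      simp only [max_eq_left hXY.le]
      have hXc : ((XX ε a : ℝ) : ℂ) ≠ 0 := by exact_mod_cast hX.ne'
      have hYc : ((XX ε b : ℝ) : ℂ) ≠ 0 := by exact_mod_cast hY.ne'
      push_cast
      field_simp
    · intro P Q R
      constructor
      · have := (hP P Q R).1
        convert this using 1
        unfold FpG
        rw [j1, j2]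
        field_simp
        ring
      · have := (hP P Q R).2
        convert this using 1
        unfold FmG
        rw [j1, j2]
        field_simp
        ring

end Pool.Agent.W658.IX.Pcx
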